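import Mathlib

set_option autoImplicit false

/-!
# Train lines, train networks, schedules

Definitions of the problem, in dimension `d`.
-/

namespace Pool.Agent.Lib.MP_03ede5_co

/-- A train line in `ℝ^d`: a departure point and a different arrival point (the ends of the
track), a train length `> 0` and a speed `> 0`. -/
structure TrainLine (d : ℕ) where
  /-- the departure point -/
  dep : EuclideanSpace ℝ (Fin d)
  /-- the arrival point -/
  arr : EuclideanSpace ℝ (Fin d)
  /-- the train length -/
  len : ℝ
  /-- the speed -/
  speed : ℝ
  dep_ne_arr : dep ≠ arr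
  len_pos : 0 < len
  speed_pos : 0 < speed

/-- The track: the segment from the departure point to the arrival point. -/
def TrainLine.track {d : ℕ} (L : TrainLine d) : Set (EuclideanSpace ℝ (Fin d)) :=
  segment ℝ L.dep L.arr

/-- A train network: a set of train lines (finite or infinite) whose tracks are pairwise
non-overlapping, that is, the tracks of two different lines have at most one common point. -/
def IsNetwork {d : ℕ} (N : Set (TrainLine d)) : Prop :=
  ∀ L ∈ N, ∀ L' ∈ N, L ≠ L' → (L.track ∩ L'.track).Subsingleton

/-- A regular network with train length `l`: speeds `1`, lengths `l`, every track parallel to a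
coordinate axis, every departure and arrival point in `ℤ^d`. -/
def IsRegular {d : ℕ} (N : Set (TrainLine d)) (l : ℕ) : Prop :=
  ∀ L ∈ N, L.speed = 1 ∧ L.len = l ∧ (∃ i, ∀ j, j ≠ i → L.dep j = L.arr j) ∧
    (∀ j, ∃ z : ℤ, L.dep j = z) ∧ (∀ j, ∃ z : ℤ, L.arr j = z)

/-- The open time interval `(0, l / v) + t + δ / v` during which the train of the line `L`, with
delay `t`, occupies the point `p` of its track, `δ` being the distance from the departure point
to `p`. -/
def TrainLine.occupied {d : ℕ} (L : TrainLine d) (t : ℝ) (p : EuclideanSpace ℝ (Fin d)) : Set ℝ :=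
  Set.Ioo (t + dist L.dep p / L.speed) (t + dist L.dep p / L.speed + L.len / L.speed)

/-- A schedule of the network `N`: nonnegative delays such that, at every common point of the
tracks of two different lines of `N`, the two open time intervals are disjoint. -/
def IsSchedule {d : ℕ} (N : Set (TrainLine d)) (t : TrainLine d → ℝ) : Prop :=
  (∀ L ∈ N, 0 ≤ t L) ∧
  ∀ L ∈ N, ∀ L' ∈ N, L ≠ L' → ∀ p, p ∈ L.track → p ∈ L'.track →
    Disjoint (L.occupied (t L) p) (L'.occupied (t L') p)

end Pool.Agent.Lib.MP_03ede5_co
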