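import Mathlib
import Pool.Agent.Lib.MP_03ede5_co.Defs

section

set_option autoImplicit false

/-!
# The scale of a crossing type

The line types of dimension `d` are the pairs `(i, σ)` of an axis and a direction. The crossing
types are the pairs of line types with different axes, the edges of the complete graph on `2 * d`
vertices less a perfect matching. They are properly coloured with `2 * d - 2` colours.
-/

namespace Pool.Agent.Lib.MP_03ede5_co

/-- The sign of a direction. -/
def sg (σ : Bool) : ℤ := if σ then 1 else -1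

theorem sg_mul_self (σ : Bool) : sg σ * sg σ = 1 := by cases σ <;> simp [sg]

theorem abs_sg (σ : Bool) : |sg σ| = 1 := by cases σ <;> simp [sg]

/-- The line type `(0, -)` is the vertex at infinity. -/
def isInf (i : ℕ) (σ : Bool) : Prop := i = 0 ∧ σ = false

instance (i : ℕ) (σ : Bool) : Decidable (isInf i σ) := by unfold isInf; infer_instance

/-- Colour as an integer, to be read modulo `2 * d - 1`. -/
def rawColor (i : ℕ) (σ : Bool) (j : ℕ) (τ : Bool) : ℤ :=
  if isInf i σ then 2 * (sg τ * j) else if isInf j τ then 2 * (sg σ * i) else sg σ * i + sg τ * j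

/-- The scale of a crossing type. -/
def color (d i : ℕ) (σ : Bool) (j : ℕ) (τ : Bool) : ℕ :=
  (rawColor i σ j τ % (2 * (d : ℤ) - 1)).toNat - 1

theorem rawColor_symm {i j : ℕ} (h : i ≠ j) (σ τ : Bool) :
    rawColor i σ j τ = rawColor j τ i σ := by
  unfold rawColor
  by_cases h1 : isInf i σ
  · have h2 : ¬ isInf j τ := fun h2 => h (h1.1.trans h2.1.symm)
    simp [h1, h2]
  · by_cases h2 : isInf j τ
    · simp [h1, h2]
    · simp [h1, h2]; ring

theorem color_symm (d : ℕ) {i j : ℕ} (h : i ≠ j) (σ τ : Bool) :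
    color d i σ j τ = color d j τ i σ := by
  unfold color; rw [rawColor_symm h]

theorem rawColor_emod_pos {d i j : ℕ} (hi : i < d) (hj : j < d) (h : i ≠ j) (σ τ : Bool) :
    0 < rawColor i σ j τ % (2 * (d : ℤ) - 1) := by
  have hn : (0 : ℤ) < 2 * (d : ℤ) - 1 := by omega
  have h0 := Int.emod_nonneg (rawColor i σ j τ) (by omega : 2 * (d : ℤ) - 1 ≠ 0)
  rcases lt_or_eq_of_le h0 with h1 | h1
  · exact h1
  · exfalso
    have hdvd : (2 * (d : ℤ) - 1) ∣ rawColor i σ j τ := Int.dvd_of_emod_eq_zero h1.symm
    have habs : |rawColor i σ j τ| < 2 * (d : ℤ) - 1 := by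
      unfold rawColor
      rw [abs_lt]
      split_ifs <;> cases σ <;> cases τ <;> simp only [sg] <;> simp <;> constructor <;> omega
    have hz := Int.eq_zero_of_abs_lt_dvd hdvd habs
    unfold rawColor isInf at hz
    cases σ <;> cases τ <;> simp only [sg] at hz <;> split_ifs at hz <;> simp_all <;> omega

/-- Colours are less than `2 * d - 2`. -/
theorem color_lt {d i j : ℕ} (hi : i < d) (hj : j < d) (h : i ≠ j) (σ τ : Bool) :
    color d i σ j τ < 2 * d - 2 := by
  have h1 := rawColor_emod_pos hi hj h σ τ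
  have h2 := Int.emod_lt_of_pos (rawColor i σ j τ) (by omega : (0 : ℤ) < 2 * (d : ℤ) - 1)
  unfold color
  omega

/-- The crossing types that share a line type have different colours. -/
theorem color_inj {d i j j' : ℕ} (hi : i < d) (hj : j < d) (hj' : j' < d) (h : i ≠ j)
    (h' : i ≠ j') (σ τ τ' : Bool) (hc : color d i σ j τ = color d i σ j' τ') :
    j = j' ∧ τ = τ' := by
  have h1 := rawColor_emod_pos hi hj h σ τ
  have h2 := rawColor_emod_pos hi hj' h' σ τ'
  have he : rawColor i σ j τ % (2 * (d : ℤ) - 1) = rawColor i σ j' τ' % (2 * (d : ℤ) - 1) := by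
    unfold color at hc
    omega
  have hdvd : (2 * (d : ℤ) - 1) ∣ (rawColor i σ j τ - rawColor i σ j' τ') :=
    Int.dvd_of_emod_eq_zero (Int.emod_eq_emod_iff_emod_sub_eq_zero.mp he)
  -- the colour difference is the difference of two numbers of absolute value `< d`,
  -- up to a factor 2
  by_cases hI : isInf i σ
  · have hr : rawColor i σ j τ - rawColor i σ j' τ' = 2 * (sg τ * j - sg τ' * j') := by
      unfold rawColor; simp [hI]; ring
    rw [hr] at hdvd
    have hcop : IsCoprime (2 * (d : ℤ) - 1) 2 := ⟨-1, d, by ring⟩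
    have hdvd' := hcop.dvd_of_dvd_mul_left hdvd
    have habs : |sg τ * j - sg τ' * j'| < 2 * (d : ℤ) - 1 := by
      rw [abs_lt]
      cases τ <;> cases τ' <;> simp only [sg] <;> simp <;> constructor <;> omega
    have hz := Int.eq_zero_of_abs_lt_dvd hdvd' habs
    have hi0 : i = 0 := hI.1
    cases τ <;> cases τ' <;> simp only [sg] at hz <;> simp_all <;> omega
  · by_cases hJ : isInf j τ
    · by_cases hJ' : isInf j' τ'
      · exact ⟨hJ.1.trans hJ'.1.symm, hJ.2.trans hJ'.2.symm⟩
      · exfalso
        have hr : rawColor i σ j τ - rawColor i σ j' τ' = sg σ * i - sg τ' * j' := by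
          unfold rawColor; simp [hI, hJ, hJ']; ring
        rw [hr] at hdvd
        have habs : |sg σ * i - sg τ' * j'| < 2 * (d : ℤ) - 1 := by
          rw [abs_lt]
          cases σ <;> cases τ' <;> simp only [sg] <;> simp <;> constructor <;> omega
        have hz := Int.eq_zero_of_abs_lt_dvd hdvd habs
        have hj0 : j = 0 := hJ.1
        cases σ <;> cases τ' <;> simp only [sg] at hz <;> simp_all <;> omega
    · by_cases hJ' : isInf j' τ'
      · exfalso
        have hr : rawColor i σ j τ - rawColor i σ j' τ' = sg τ * j - sg σ * i := by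
          unfold rawColor; simp [hI, hJ, hJ']; ring
        rw [hr] at hdvd
        have habs : |sg τ * j - sg σ * i| < 2 * (d : ℤ) - 1 := by
          rw [abs_lt]
          cases σ <;> cases τ <;> simp only [sg] <;> simp <;> constructor <;> omega
        have hz := Int.eq_zero_of_abs_lt_dvd hdvd habs
        have hj0 : j' = 0 := hJ'.1
        cases σ <;> cases τ <;> simp only [sg] at hz <;> simp_all <;> omega
      · have hr : rawColor i σ j τ - rawColor i σ j' τ' = sg τ * j - sg τ' * j' := by
          unfold rawColor; simp [hI, hJ, hJ']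
        rw [hr] at hdvd
        have habs : |sg τ * j - sg τ' * j'| < 2 * (d : ℤ) - 1 := by
          rw [abs_lt]
          cases τ <;> cases τ' <;> simp only [sg] <;> simp <;> constructor <;> omega
        have hz := Int.eq_zero_of_abs_lt_dvd hdvd habs
        unfold isInf at hJ hJ'
        cases τ <;> cases τ' <;> simp only [sg] at hz <;> simp_all <;> omega

end Pool.Agent.Lib.MP_03ede5_co
end

section

set_option autoImplicit false

/-!
# Half zones at nested scales

Integer part of the argument: half zones modulo `2 * B`, their separation, the nested choice of a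
common point of one zone per scale, and the greedy choice along a forest of parents.
-/

namespace Pool.Agent.Lib.MP_03ede5_co

/-- `n` lies, modulo `2 * B`, in the low part `[0, B - l]` (`hi = false`) or in the high part
`[B, 2 * B - l]` (`hi = true`). -/
def InZone (B l : ℤ) (hi : Bool) (n : ℤ) : Prop :=
  ∃ m : ℤ, 2 * B * m + (if hi then B else 0) ≤ n ∧ n + l ≤ 2 * B * m + (if hi then B else 0) + B

theorem InZone.sep {B l : ℤ} (hB : 0 < B) {u v : ℤ} (hu : InZone B l false u)
    (hv : InZone B l true v) : l ≤ |u - v| := by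
  obtain ⟨m, h1, h2⟩ := hu
  obtain ⟨m', h3, h4⟩ := hv
  simp only [Bool.false_eq_true, if_false, if_true] at h1 h2 h3 h4
  rcases le_or_gt m m' with h | h
  · have : 2 * B * m ≤ 2 * B * m' := by
      apply mul_le_mul_of_nonneg_left h; omega
    rw [abs_sub_comm]
    refine le_trans ?_ (le_abs_self _)
    linarith
  · have h' : m' + 1 ≤ m := h
    have : 2 * B * (m' + 1) ≤ 2 * B * m := by
      apply mul_le_mul_of_nonneg_left h'; omega
    refine le_trans ?_ (le_abs_self _)
    nlinarith

theorem InZone.sep' {B l : ℤ} (hB : 0 < B) {u v : ℤ} {z z' : Bool} (hz : z ≠ z')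
    (hu : InZone B l z u) (hv : InZone B l z' v) : l ≤ |u - v| := by
  cases z <;> cases z'
  · exact absurd rfl hz
  · exact InZone.sep hB hu hv
  · rw [abs_sub_comm]; exact InZone.sep hB hv hu
  · exact absurd rfl hz

theorem InZone.add_period {B l : ℤ} {z : Bool} {n : ℤ} (h : InZone B l z n) (q : ℤ) :
    InZone B l z (n + 2 * B * q) := by
  obtain ⟨m, h1, h2⟩ := h
  refine ⟨m + q, ?_, ?_⟩ <;> nlinarith

/-- Every integer is at most `2 * B - 1` below the start of a zone. -/
theorem exists_zone_start {B l : ℤ} (hB : 0 < B) (z : Bool) (s u : ℤ) :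
    ∃ w : ℤ, u ≤ w ∧ w ≤ u + 2 * B ∧ ∀ n, w ≤ n → n + l ≤ w + B → InZone B l z (n - s) := by
  set c : ℤ := if z then B else 0 with hc
  -- `w = s + c + 2 * B * m` with `m` least such that `u ≤ w`
  set m : ℤ := (u - s - c) / (2 * B) + 1 with hm
  have h2B : (0 : ℤ) < 2 * B := by omega
  have e1 := Int.emod_add_mul_ediv (u - s - c) (2 * B)
  have e2 := Int.emod_nonneg (u - s - c) (by omega : (2 * B) ≠ 0)
  have e3 := Int.emod_lt_of_pos (u - s - c) h2B
  refine ⟨s + c + 2 * B * m, ?_, ?_, ?_⟩
  · rw [hm]; nlinarith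
  · rw [hm]; nlinarith
  · intro n hn1 hn2
    refine ⟨m, ?_, ?_⟩
    · rw [← hc]; linarith
    · rw [← hc]; linarith

/-- The scales. -/
def scale (l : ℤ) (k : ℕ) : ℤ := l * 3 ^ (k + 1)

theorem scale_pos {l : ℤ} (hl : 0 < l) (k : ℕ) : 0 < scale l k := by
  unfold scale; positivity

theorem scale_succ (l : ℤ) (k : ℕ) : scale l (k + 1) = 3 * scale l k := by
  unfold scale; ring

theorem scale_zero (l : ℤ) : scale l 0 = 3 * l := by
  unfold scale; ring

theorem scale_add (l : ℤ) (k j : ℕ) : scale l (k + j) = scale l k * 3 ^ j := by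
  unfold scale; rw [show k + j + 1 = (k + 1) + j by omega, pow_add]; ring

/-- Nested choice: one zone condition per scale can be met on a whole interval of length `2 * l`. -/
theorem nested {ι : Type} {l : ℤ} (hl : 0 < l) (P : ι → Prop) (κ : ι → ℕ)
    (hinj : ∀ a b, P a → P b → κ a = κ b → a = b) (s : ι → ℤ) (z : ι → Bool) (K : ℕ) :
    ∀ u : ℤ, ∃ v : ℤ, u ≤ v ∧ v + 3 * l ≤ u + scale l K ∧
      ∀ n, v ≤ n → n ≤ v + 2 * l → ∀ a, P a → κ a < K →
        InZone (scale l (κ a)) l (z a) (n - s a) := by
  induction K with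
  | zero =>
    intro u
    refine ⟨u, le_rfl, ?_, ?_⟩
    · rw [scale_zero]
    · intro n _ _ a _ h; omega
  | succ K ih =>
    intro u
    by_cases h : ∃ a, P a ∧ κ a = K
    · obtain ⟨a, ha, hK⟩ := h
      obtain ⟨w, hw1, hw2, hw3⟩ := exists_zone_start (l := l) (scale_pos hl K) (z a) (s a) u
      obtain ⟨v, hv1, hv2, hv3⟩ := ih w
      refine ⟨v, le_trans hw1 hv1, ?_, ?_⟩
      · rw [scale_succ]; linarith
      · intro n hn1 hn2 b hb hbK
        rcases Nat.lt_succ_iff_lt_or_eq.mp hbK with h | h
        · exact hv3 n hn1 hn2 b hb h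
        · have hba : b = a := hinj b a hb ha (by rw [h, hK])
          subst hba
          rw [hK]
          exact hw3 n (by linarith) (by linarith)
    · obtain ⟨v, hv1, hv2, hv3⟩ := ih u
      refine ⟨v, hv1, ?_, ?_⟩
      · rw [scale_succ]; linarith [scale_pos hl K]
      · intro n hn1 hn2 b hb hbK
        rcases Nat.lt_succ_iff_lt_or_eq.mp hbK with h' | h'
        · exact hv3 n hn1 hn2 b hb h'
        · exact absurd ⟨b, hb, h'⟩ h

/-- Of three residues `u, u + l, u + 2 * l`, one is at circular distance at least `l` from `0`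
modulo `M ≥ 3 * l`. -/
theorem three_choices {l M : ℤ} (hl : 0 < l) (hM : 3 * l ≤ M) (u : ℤ) :
    ∃ c : ℤ, 0 ≤ c ∧ c ≤ 2 * l ∧ ∀ q : ℤ, l ≤ |u + c - M * q| := by
  have hM0 : (0 : ℤ) < M := by omega
  have e1 := Int.emod_add_mul_ediv u M
  have e2 := Int.emod_nonneg u (by omega : M ≠ 0)
  have e3 := Int.emod_lt_of_pos u hM0
  set ρ := u % M with hρ
  -- key: if `l ≤ x ≤ M - l` then `x` is far from all multiples
  have key : ∀ x : ℤ, l ≤ x → x ≤ M - l → ∀ q : ℤ, l ≤ |x - M * q| := by
    intro x hx1 hx2 q
    rcases le_or_gt q 0 with hq | hq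
    · refine le_trans ?_ (le_abs_self _)
      nlinarith
    · rw [abs_sub_comm]
      refine le_trans ?_ (le_abs_self _)
      have : M * 1 ≤ M * q := mul_le_mul_of_nonneg_left hq hM0.le
      linarith
  rcases lt_or_ge ρ l with h | h
  · refine ⟨l, hl.le, by omega, ?_⟩
    intro q
    have := key (ρ + l) (by omega) (by omega) (q - u / M)
    convert this using 2
    rw [mul_sub]; linarith
  · rcases le_or_gt ρ (M - l) with h' | h'
    · refine ⟨0, le_rfl, by omega, ?_⟩
      intro q
      have := key ρ h h' (q - u / M)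
      convert this using 2
      rw [mul_sub]; linarith
    · refine ⟨2 * l, by omega, le_rfl, ?_⟩
      intro q
      have := key (ρ + 2 * l - M) (by omega) (by omega) (q - u / M - 1)
      convert this using 2
      rw [mul_sub, mul_sub]; linarith

/-- Greedy choice along a relation in which every element has at most one parent, of smaller
rank. -/
theorem greedy {α : Type*} (rank : α → ℕ) (par : α → α → Prop)
    (hrank : ∀ x q, par x q → rank q < rank x) (huniq : ∀ x q q', par x q → par x q' → q = q')
    (V : α → ℤ → Prop) (hV : ∀ x, ∃ a, V x a) (bad : α → α → ℤ → ℤ → Prop)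
    (h : ∀ x q b, par x q → ∃ a, V x a ∧ ¬ bad x q a b) :
    ∃ f : α → ℤ, (∀ x, V x (f x)) ∧ ∀ x q, par x q → ¬ bad x q (f x) (f q) := by
  classical
  have hwf : WellFounded (fun a b : α => rank a < rank b) := (measure rank).wf
  let F : (x : α) → ((y : α) → rank y < rank x → ℤ) → ℤ := fun x rec =>
    if hx : ∃ q, par x q then
      (h x hx.choose (rec hx.choose (hrank _ _ hx.choose_spec)) hx.choose_spec).choose
    else (hV x).choose
  refine ⟨hwf.fix F, ?_, ?_⟩
  · intro x
    rw [hwf.fix_eq]
    by_cases hx : ∃ q, par x q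
    · simp only [F, dif_pos hx]
      exact (h x hx.choose _ hx.choose_spec).choose_spec.1
    · simp only [F, dif_neg hx]
      exact (hV x).choose_spec
  · intro x q hq
    have hx : ∃ q, par x q := ⟨q, hq⟩
    have hqq : hx.choose = q := huniq x _ _ hx.choose_spec hq
    have := (h x hx.choose (hwf.fix F hx.choose) hx.choose_spec).choose_spec.2
    have e : hwf.fix F x =
        (h x hx.choose (hwf.fix F hx.choose) hx.choose_spec).choose := by
      conv_lhs => rw [hwf.fix_eq]
      simp only [F, dif_pos hx]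
    rw [e]
    intro hbad
    apply this
    have e2 : hwf.fix F q = hwf.fix F hx.choose := by rw [hqq]
    rw [e2] at hbad
    convert hbad using 1

end Pool.Agent.Lib.MP_03ede5_co
end

section

set_option autoImplicit false

/-!
# Every regular network has a schedule of bounded delay
-/

namespace Pool.Agent.Lib.MP_03ede5_co

variable {d : ℕ}

namespace TrainLine

theorem exists_ne (L : TrainLine d) : ∃ i, L.dep i ≠ L.arr i := by
  by_contra h
  push Not at h
  apply L.dep_ne_arr
  ext i
  exact h i

/-- The axis along which the line runs. -/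
noncomputable def axis (L : TrainLine d) : Fin d := L.exists_ne.choose

theorem axis_spec (L : TrainLine d) : L.dep L.axis ≠ L.arr L.axis := L.exists_ne.choose_spec

/-- Integer coordinates of the departure point. -/
noncomputable def x (L : TrainLine d) (j : Fin d) : ℤ := ⌊L.dep j⌋

/-- Integer coordinates of the arrival point. -/
noncomputable def y (L : TrainLine d) (j : Fin d) : ℤ := ⌊L.arr j⌋

/-- The direction. -/
noncomputable def dir (L : TrainLine d) : Bool := decide (L.x L.axis < L.y L.axis)

/-- Lower end of the track along its axis. -/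
noncomputable def lo (L : TrainLine d) : ℤ := min (L.x L.axis) (L.y L.axis)

/-- Upper end of the track along its axis. -/
noncomputable def hi (L : TrainLine d) : ℤ := max (L.x L.axis) (L.y L.axis)

/-- The point of the line carrying the track with given coordinate along the axis. -/
noncomputable def pt (L : TrainLine d) (c : ℝ) : EuclideanSpace ℝ (Fin d) :=
  WithLp.toLp 2 (fun j => if j = L.axis then c else L.dep j)

end TrainLine

/-- A line of a regular network. -/
structure GoodLine (L : TrainLine d) (l : ℕ) : Prop where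
  speed : L.speed = 1
  len : L.len = l
  off : ∀ j, j ≠ L.axis → L.dep j = L.arr j
  hx : ∀ j, L.dep j = L.x j
  hy : ∀ j, L.arr j = L.y j

theorem IsRegular.good {N : Set (TrainLine d)} {l : ℕ} (h : IsRegular N l) {L : TrainLine d}
    (hL : L ∈ N) : GoodLine L l := by
  obtain ⟨h1, h2, ⟨i, hi⟩, h4, h5⟩ := h L hL
  refine ⟨h1, h2, ?_, ?_, ?_⟩
  · have : L.axis = i := by
      by_contra hne
      exact L.axis_spec (hi _ hne)
    rw [this]; exact hi
  · intro j
    obtain ⟨z, hz⟩ := h4 j
    unfold TrainLine.x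
    rw [hz]; simp
  · intro j
    obtain ⟨z, hz⟩ := h5 j
    unfold TrainLine.y
    rw [hz]; simp

namespace GoodLine

variable {l : ℕ} {L : TrainLine d}

theorem x_ne_y (h : GoodLine L l) : L.x L.axis ≠ L.y L.axis := by
  intro he
  apply L.axis_spec
  rw [h.hx, h.hy, he]

theorem lo_lt_hi (h : GoodLine L l) : L.lo < L.hi := by
  unfold TrainLine.lo TrainLine.hi
  exact min_lt_max.mpr h.x_ne_y

/-- The coordinates of a point of the track. -/
theorem mem_track (h : GoodLine L l) {p : EuclideanSpace ℝ (Fin d)} (hp : p ∈ L.track) :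
    (∀ j, j ≠ L.axis → p j = L.x j) ∧ (L.lo : ℝ) ≤ p L.axis ∧ p L.axis ≤ L.hi := by
  obtain ⟨a, b, ha, hb, hab, rfl⟩ := hp
  refine ⟨?_, ?_, ?_⟩
  · intro j hj
    have : (a • L.dep + b • L.arr) j = a * L.dep j + b * L.arr j := by simp
    rw [this, ← h.off j hj, ← add_mul, hab, one_mul, h.hx]
  · have e : (a • L.dep + b • L.arr) L.axis = a * L.dep L.axis + b * L.arr L.axis := by simp
    rw [e, h.hx, h.hy]
    have h1 : (L.lo : ℝ) ≤ L.x L.axis := by exact_mod_cast min_le_left _ _
    have h2 : (L.lo : ℝ) ≤ L.y L.axis := by exact_mod_cast min_le_right _ _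
    calc (L.lo : ℝ) = a * L.lo + b * L.lo := by rw [← add_mul, hab, one_mul]
      _ ≤ _ := add_le_add (mul_le_mul_of_nonneg_left h1 ha) (mul_le_mul_of_nonneg_left h2 hb)
  · have e : (a • L.dep + b • L.arr) L.axis = a * L.dep L.axis + b * L.arr L.axis := by simp
    rw [e, h.hx, h.hy]
    have h1 : (L.x L.axis : ℝ) ≤ L.hi := by exact_mod_cast le_max_left _ _
    have h2 : (L.y L.axis : ℝ) ≤ L.hi := by exact_mod_cast le_max_right _ _
    calc _ ≤ a * (L.hi : ℝ) + b * L.hi :=
          add_le_add (mul_le_mul_of_nonneg_left h1 ha) (mul_le_mul_of_nonneg_left h2 hb)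
      _ = L.hi := by rw [← add_mul, hab, one_mul]

theorem pt_mem_track (h : GoodLine L l) {c : ℝ} (h1 : (L.lo : ℝ) ≤ c) (h2 : c ≤ L.hi) :
    L.pt c ∈ L.track := by
  have hne : (L.y L.axis : ℝ) - L.x L.axis ≠ 0 := by
    intro h0
    apply h.x_ne_y
    have : (L.y L.axis : ℝ) = L.x L.axis := by linarith
    exact_mod_cast this.symm
  set θ : ℝ := (c - L.x L.axis) / (L.y L.axis - L.x L.axis) with hθ
  have hc : c = L.x L.axis + θ * (L.y L.axis - L.x L.axis) := by
    rw [hθ]; field_simp; ring
  have hθ0 : 0 ≤ θ ∧ θ ≤ 1 := by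
    unfold TrainLine.lo at h1
    unfold TrainLine.hi at h2
    push_cast at h1 h2
    rcases lt_or_gt_of_ne h.x_ne_y with hlt | hlt
    · have hlt' : (L.x L.axis : ℝ) < L.y L.axis := by exact_mod_cast hlt
      rw [min_eq_left hlt'.le] at h1
      rw [max_eq_right hlt'.le] at h2
      constructor
      · rw [hθ]; apply div_nonneg <;> linarith
      · rw [hθ, div_le_one (by linarith)]; linarith
    · have hlt' : (L.y L.axis : ℝ) < L.x L.axis := by exact_mod_cast hlt
      rw [min_eq_right hlt'.le] at h1
      rw [max_eq_left hlt'.le] at h2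
      constructor
      · rw [hθ]; apply div_nonneg_of_nonpos <;> linarith
      · rw [hθ, div_le_one_of_neg (by linarith)]; linarith
  refine ⟨1 - θ, θ, by linarith [hθ0.2], hθ0.1, by ring, ?_⟩
  ext j
  have e : ((1 - θ) • L.dep + θ • L.arr) j = (1 - θ) * L.dep j + θ * L.arr j := by simp
  rw [e]
  unfold TrainLine.pt
  simp only
  by_cases hj : j = L.axis
  · rw [if_pos hj, hj, h.hx, h.hy, hc]; ring
  · rw [if_neg hj, ← h.off j hj]; ring

/-- The distance from the departure point to a point of the track. -/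
theorem dist_eq (h : GoodLine L l) {p : EuclideanSpace ℝ (Fin d)} (hp : p ∈ L.track) :
    dist L.dep p = (sg L.dir : ℝ) * (p L.axis - L.x L.axis) := by
  have hm := h.mem_track hp
  have h1 : dist L.dep p = |L.dep L.axis - p L.axis| := by
    rw [EuclideanSpace.dist_eq, Finset.sum_eq_single L.axis]
    · rw [Real.sqrt_sq_eq_abs, Real.dist_eq, abs_abs]
    · intro j _ hj
      rw [hm.1 j hj, h.hx, dist_self]; ring
    · intro h; exact absurd (Finset.mem_univ _) h
  rw [h1, h.hx]
  unfold TrainLine.lo TrainLine.hi at hm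
  obtain ⟨-, hm1, hm2⟩ := hm
  push_cast at hm1 hm2
  rcases lt_or_gt_of_ne h.x_ne_y with hlt | hlt
  · have hlt' : (L.x L.axis : ℝ) < L.y L.axis := by exact_mod_cast hlt
    rw [min_eq_left hlt'.le] at hm1
    have : L.dir = true := by unfold TrainLine.dir; simpa using hlt
    rw [this, abs_sub_comm, abs_of_nonneg (by linarith)]
    simp [sg]
  · have hlt' : (L.y L.axis : ℝ) < L.x L.axis := by exact_mod_cast hlt
    rw [max_eq_left hlt'.le] at hm2
    have : L.dir = false := by unfold TrainLine.dir; simpa using hlt.le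
    rw [this, abs_of_nonneg (by linarith)]
    simp [sg]

end GoodLine

/-- Two times at distance at least `l` give disjoint open intervals of length `l`. -/
theorem disjoint_of_far {a b l : ℝ} (h : l ≤ |a - b|) :
    Disjoint (Set.Ioo a (a + l)) (Set.Ioo b (b + l)) := by
  rw [Set.disjoint_left]
  rintro z ⟨h1, h2⟩ ⟨h3, h4⟩
  have : |a - b| < l := by
    rw [abs_lt]; constructor <;> linarith
  linarith

/-- The touching relation: `q` is the parent of `L`. -/
def Par (N : Set (TrainLine d)) (L q : TrainLine d) : Prop :=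
  L ∈ N ∧ q ∈ N ∧ L.axis = q.axis ∧ (∀ j, j ≠ L.axis → L.x j = q.x j) ∧
    ((1 ≤ L.lo ∧ q.hi = L.lo) ∨ (L.hi ≤ 0 ∧ q.lo = L.hi))

/-- The rank of a line. -/
noncomputable def rk (L : TrainLine d) : ℕ :=
  if 1 ≤ L.lo then L.lo.toNat else if L.hi ≤ 0 then (1 - L.hi).toNat else 0

/-- The coordinate at which a line touches its parent. -/
noncomputable def touch (L : TrainLine d) : ℤ := if 1 ≤ L.lo then L.lo else L.hi

theorem pt_eq_pt {L q : TrainLine d} {l : ℕ} (hL : GoodLine L l) (hq : GoodLine q l)
    (ha : L.axis = q.axis) (hx : ∀ j, j ≠ L.axis → L.x j = q.x j) (c : ℝ) :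
    L.pt c = q.pt c := by
  ext j
  unfold TrainLine.pt
  simp only
  by_cases hj : j = L.axis
  · rw [if_pos hj, if_pos (hj.trans ha)]
  · rw [if_neg hj, if_neg (fun h => hj (h.trans ha.symm)), hL.hx, hq.hx, hx j hj]

theorem pt_inj {L : TrainLine d} {c c' : ℝ} (h : L.pt c = L.pt c') : c = c' := by
  have := congrArg (fun p : EuclideanSpace ℝ (Fin d) => p L.axis) h
  unfold TrainLine.pt at this
  simpa using this

/-- Two different lines of a network on the same geometric line do not overlap. -/
theorem no_overlap {N : Set (TrainLine d)} {l : ℕ} (hN : IsNetwork N) (hreg : IsRegular N l)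
    {L q : TrainLine d} (hL : L ∈ N) (hq : q ∈ N) (hne : L ≠ q) (ha : L.axis = q.axis)
    (hx : ∀ j, j ≠ L.axis → L.x j = q.x j) : min L.hi q.hi ≤ max L.lo q.lo := by
  by_contra hlt
  push Not at hlt
  have gL := hreg.good hL
  have gq := hreg.good hq
  have hsub := hN L hL q hq hne
  have hlt' : ((max L.lo q.lo : ℤ) : ℝ) < ((min L.hi q.hi : ℤ) : ℝ) := by exact_mod_cast hlt
  have m1 : ∀ c : ℝ, ((max L.lo q.lo : ℤ) : ℝ) ≤ c → c ≤ ((min L.hi q.hi : ℤ) : ℝ) →
      L.pt c ∈ L.track ∩ q.track := by
    intro c h1 h2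
    have a1 : (L.lo : ℝ) ≤ ((max L.lo q.lo : ℤ) : ℝ) := by exact_mod_cast le_max_left _ _
    have a2 : (q.lo : ℝ) ≤ ((max L.lo q.lo : ℤ) : ℝ) := by exact_mod_cast le_max_right _ _
    have a3 : ((min L.hi q.hi : ℤ) : ℝ) ≤ L.hi := by exact_mod_cast min_le_left _ _
    have a4 : ((min L.hi q.hi : ℤ) : ℝ) ≤ q.hi := by exact_mod_cast min_le_right _ _
    refine ⟨gL.pt_mem_track (a1.trans h1) (h2.trans a3), ?_⟩
    rw [pt_eq_pt gL gq ha hx]
    exact gq.pt_mem_track (a2.trans h1) (h2.trans a4)
  have := pt_inj (hsub (m1 _ le_rfl hlt'.le) (m1 _ hlt'.le le_rfl))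
  linarith

theorem par_rank {N : Set (TrainLine d)} {l : ℕ} (hreg : IsRegular N l)
    {L q : TrainLine d} (h : Par N L q) : rk q < rk L := by
  obtain ⟨hL, hq, -, -, h⟩ := h
  have h1 := (hreg.good hL).lo_lt_hi
  have h2 := (hreg.good hq).lo_lt_hi
  unfold rk
  rcases h with ⟨h3, h4⟩ | ⟨h3, h4⟩ <;> split_ifs <;> omega

theorem par_uniq {N : Set (TrainLine d)} {l : ℕ} (hN : IsNetwork N) (hreg : IsRegular N l)
    {L q q' : TrainLine d} (h : Par N L q) (h' : Par N L q') : q = q' := by
  by_contra hne
  obtain ⟨hL, hq, ha, hx, h⟩ := h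
  obtain ⟨-, hq', ha', hx', h'⟩ := h'
  have h1 := (hreg.good hL).lo_lt_hi
  have h2 := (hreg.good hq).lo_lt_hi
  have h3 := (hreg.good hq').lo_lt_hi
  have hov := no_overlap hN hreg hq hq' hne (ha.symm.trans ha') (by
    intro j hj
    rw [← ha] at hj
    rw [← hx j hj, ← hx' j hj])
  rcases h with ⟨h4, h5⟩ | ⟨h4, h5⟩ <;> rcases h' with ⟨h6, h7⟩ | ⟨h6, h7⟩ <;> omega

/-- The integer arrival times. -/
theorem main_int (hd : 2 ≤ d) {N : Set (TrainLine d)} {l : ℕ} (hl : 0 < l) (hN : IsNetwork N)
    (hreg : IsRegular N l) :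
    ∃ T : TrainLine d → ℤ, (∀ L, 0 ≤ T L ∧ T L < 2 * 9 ^ (d - 1) * l) ∧
      ∀ L ∈ N, ∀ L' ∈ N, L ≠ L' → ∀ p, p ∈ L.track → p ∈ L'.track →
        (l : ℝ) ≤ |((T L : ℝ) + dist L.dep p) - ((T L' : ℝ) + dist L'.dep p)| := by
  have hlZ : (0 : ℤ) < (l : ℤ) := by exact_mod_cast hl
  set M : ℤ := 2 * scale l (2 * d - 3) with hM
  have hMval : M = 2 * 9 ^ (d - 1) * l := by
    rw [hM]; unfold scale
    have : (2 * d - 3 + 1) = 2 * (d - 1) := by omega
    rw [this, pow_mul]; norm_num; ring
  have hM3 : 3 * (l : ℤ) ≤ M := by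
    rw [hM]; unfold scale
    have h3 : (3 : ℤ) ≤ 3 ^ (2 * d - 3 + 1) := by
      have : (3 : ℤ) ^ 1 ≤ 3 ^ (2 * d - 3 + 1) := pow_le_pow_right₀ (by norm_num) (by omega)
      simpa using this
    nlinarith
  have hM0 : 0 < M := by omega
  -- the nested choice for every line
  have hnest : ∀ L : TrainLine d, ∃ v : ℤ, ∀ n, v ≤ n → n ≤ v + 2 * l →
      ∀ j : Fin d, ∀ τ : Bool, j ≠ L.axis →
        InZone (scale l (color d L.axis L.dir j τ)) l (decide (j < L.axis))
          (n - sg τ * L.x j) := by
    intro L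
    obtain ⟨v, -, -, hv⟩ := nested (ι := Fin d × Bool) hlZ (fun a => a.1 ≠ L.axis)
      (fun a => color d L.axis L.dir a.1 a.2) (by
        rintro ⟨j, τ⟩ ⟨j', τ'⟩ hj hj' he
        have := color_inj (d := d) (i := L.axis) (j := j) (j' := j') L.axis.2 j.2 j'.2
          (fun h => hj (Fin.ext h.symm)) (fun h => hj' (Fin.ext h.symm)) L.dir τ τ' he
        exact Prod.ext (Fin.ext this.1) this.2)
      (fun a => sg a.2 * L.x a.1) (fun a => decide (a.1 < L.axis)) (2 * d - 2) 0
    refine ⟨v, fun n h1 h2 j τ hj => ?_⟩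
    exact hv n h1 h2 (j, τ) hj (color_lt L.axis.2 j.2 (fun h => hj (Fin.ext h.symm)) L.dir τ)
  choose v hv using hnest
  -- the greedy choice
  obtain ⟨f, hf1, hf2⟩ := greedy (α := TrainLine d) rk (Par N)
    (fun L q h => par_rank hreg h) (fun L q q' h h' => par_uniq hN hreg h h')
    (fun L a => v L ≤ a ∧ a ≤ v L + 2 * l) (fun L => ⟨v L, le_rfl, by omega⟩)
    (fun L q a b => ∃ Q : ℤ, |(a + sg L.dir * touch L) - (b + sg q.dir * touch L) - M * Q| < l)
    (by
      intro L q b _
      obtain ⟨c, hc0, hc1, hc2⟩ := three_choices hlZ hM3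
        (v L + sg L.dir * touch L - (b + sg q.dir * touch L))
      refine ⟨v L + c, ⟨by omega, by omega⟩, ?_⟩
      rintro ⟨Q, hQ⟩
      have := hc2 Q
      rw [show v L + sg L.dir * touch L - (b + sg q.dir * touch L) + c - M * Q
        = (v L + c + sg L.dir * touch L) - (b + sg q.dir * touch L) - M * Q by ring] at this
      omega)
  -- the delays
  set g : TrainLine d → ℤ := fun L => f L + sg L.dir * L.x L.axis with hg
  refine ⟨fun L => g L % M, ?_, ?_⟩
  · intro L
    refine ⟨Int.emod_nonneg _ (by omega), ?_⟩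
    rw [← hMval]
    exact Int.emod_lt_of_pos _ hM0
  · intro L hL L' hL' hne p hp hp'
    have gL := hreg.good hL
    have gL' := hreg.good hL'
    have mL := gL.mem_track hp
    have mL' := gL'.mem_track hp'
    rw [gL.dist_eq hp, gL'.dist_eq hp']
    beta_reduce
    have eL : g L % M = f L + sg L.dir * L.x L.axis - M * (g L / M) := by
      have := Int.emod_add_mul_ediv (g L) M
      simp only [hg] at this ⊢
      linarith
    have eL' : g L' % M = f L' + sg L'.dir * L'.x L'.axis - M * (g L' / M) := by
      have := Int.emod_add_mul_ediv (g L') M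
      simp only [hg] at this ⊢
      linarith
    rw [eL, eL']
    by_cases hax : L.axis = L'.axis
    · -- same axis
      have hxx : ∀ j, j ≠ L.axis → L.x j = L'.x j := by
        intro j hj
        have h1 := mL.1 j hj
        have h2 := mL'.1 j (hax ▸ hj)
        have h3 : (L.x j : ℝ) = (L'.x j : ℝ) := h1.symm.trans h2
        exact_mod_cast h3
      have hov := no_overlap hN hreg hL hL' hne hax hxx
      have hlohi := gL.lo_lt_hi
      have hlohi' := gL'.lo_lt_hi
      have b1 := mL.2.1
      have b2 := mL.2.2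
      have b3 := mL'.2.1
      have b4 := mL'.2.2
      rw [← hax] at b3 b4
      -- the key estimate, for a line `A` right of a line `B`
      have key : ∀ A B : TrainLine d, A ∈ N → B ∈ N → A.axis = B.axis →
          (∀ j, j ≠ A.axis → A.x j = B.x j) → A.lo < A.hi → B.lo < B.hi → B.hi = A.lo →
          ∀ Q : ℤ, (l : ℤ) ≤ |(f A + sg A.dir * A.lo) - (f B + sg B.dir * A.lo) - M * Q| := by
        intro A B hA hB h1 h2 h3 h4 h5 Q
        rcases lt_or_ge A.lo 1 with h6 | h6
        · -- `A` is the parent of `B`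
          have hpar : Par N B A := ⟨hB, hA, h1.symm, fun j hj => (h2 j (h1 ▸ hj)).symm,
            Or.inr ⟨by omega, by omega⟩⟩
          have := hf2 B A hpar
          have ht : touch B = A.lo := by
            unfold touch; rw [if_neg (by omega)]; omega
          rw [ht] at this
          by_contra hcon
          push Not at hcon
          apply this
          refine ⟨-Q, ?_⟩
          rw [abs_sub_comm] at hcon
          rw [show f B + sg B.dir * A.lo - (f A + sg A.dir * A.lo) - M * -Q
            = M * Q - ((f A + sg A.dir * A.lo) - (f B + sg B.dir * A.lo)) by ring]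
          exact hcon
        · have hpar : Par N A B := ⟨hA, hB, h1, h2, Or.inl ⟨h6, h5⟩⟩
          have := hf2 A B hpar
          have ht : touch A = A.lo := by
            unfold touch; rw [if_pos h6]
          rw [ht] at this
          by_contra hcon
          push Not at hcon
          exact this ⟨Q, hcon⟩
      rcases le_or_gt L.hi L'.hi with h1 | h1
      · -- then the common point is `L.hi = L'.lo`
        have hle : L.hi ≤ max L.lo L'.lo := by rwa [min_eq_left h1] at hov
        have hle2 : L.hi ≤ L'.lo := by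
          rcases le_max_iff.mp hle with h | h
          · omega
          · exact h
        have hR : (L.hi : ℝ) ≤ L'.lo := by exact_mod_cast hle2
        have hpc : p L.axis = L'.lo := by linarith
        have hhl : L.hi = L'.lo := by
          have : (L.hi : ℝ) = L'.lo := by linarith
          exact_mod_cast this
        have hk := key L' L hL' hL hax.symm (fun j hj => (hxx j (hax ▸ hj)).symm) hlohi' hlohi hhl
          (g L' / M - g L / M)
        rw [← hax, hpc]
        have hkR : ((l : ℤ) : ℝ) ≤ ((|(f L' + sg L'.dir * L'.lo) - (f L + sg L.dir * L'.lo)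
          - M * (g L' / M - g L / M)| : ℤ) : ℝ) := by exact_mod_cast hk
        push_cast at hkR ⊢
        rw [abs_sub_comm]
        refine le_of_le_of_eq hkR ?_
        congr 1
        ring
      · have hle : L'.hi ≤ max L.lo L'.lo := by rwa [min_eq_right h1.le] at hov
        have hle2 : L'.hi ≤ L.lo := by
          rcases le_max_iff.mp hle with h | h
          · exact h
          · omega
        have hR : (L'.hi : ℝ) ≤ L.lo := by exact_mod_cast hle2
        have hpc : p L.axis = L.lo := by linarith
        have hhl : L'.hi = L.lo := by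
          have : (L'.hi : ℝ) = L.lo := by linarith
          exact_mod_cast this
        have hk := key L L' hL hL' hax hxx hlohi hlohi' hhl (g L / M - g L' / M)
        rw [← hax, hpc]
        have hkR : ((l : ℤ) : ℝ) ≤ ((|(f L + sg L.dir * L.lo) - (f L' + sg L'.dir * L.lo)
          - M * (g L / M - g L' / M)| : ℤ) : ℝ) := by exact_mod_cast hk
        push_cast at hkR ⊢
        refine le_of_le_of_eq hkR ?_
        congr 1
        ring
    · -- different axes
      have hp1 : p L.axis = L'.x L.axis := mL'.1 _ hax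
      have hp2 : p L'.axis = L.x L'.axis := mL.1 _ (fun h => hax h.symm)
      rw [hp1, hp2]
      have z1 := hv L (f L) (hf1 L).1 (hf1 L).2 L'.axis L'.dir (fun h => hax h.symm)
      have z2 := hv L' (f L') (hf1 L').1 (hf1 L').2 L.axis L.dir hax
      have hcol : color d L'.axis L'.dir L.axis L.dir = color d L.axis L.dir L'.axis L'.dir :=
        color_symm d (fun h => hax (Fin.ext h.symm)) _ _
      rw [hcol] at z2
      set κ := color d L.axis L.dir L'.axis L'.dir with hκ
      have hκlt : κ < 2 * d - 2 :=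
        color_lt L.axis.2 L'.axis.2 (fun h => hax (Fin.ext h)) _ _
      have hMκ : M = 2 * scale l κ * 3 ^ (2 * d - 3 - κ) := by
        rw [hM, mul_assoc, ← scale_add]
        congr 2; omega
      have z1' := z1.add_period (-(3 ^ (2 * d - 3 - κ) * (g L / M)))
      have z2' := z2.add_period (-(3 ^ (2 * d - 3 - κ) * (g L' / M)))
      have hzz : decide (L'.axis < L.axis) ≠ decide (L.axis < L'.axis) := by
        intro h
        rcases lt_or_gt_of_ne hax with h1 | h1
        · simp [h1, h1.not_gt] at h
        · simp [h1, h1.not_gt] at h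
      have hsep := InZone.sep' (scale_pos hlZ κ) hzz z1' z2'
      have hsepR : ((l : ℤ) : ℝ) ≤ ((|f L - sg L'.dir * L.x L'.axis +
          2 * scale l κ * -(3 ^ (2 * d - 3 - κ) * (g L / M)) -
          (f L' - sg L.dir * L'.x L.axis +
          2 * scale l κ * -(3 ^ (2 * d - 3 - κ) * (g L' / M)))| : ℤ) : ℝ) := by
        exact_mod_cast hsep
      have hMR : (M : ℝ) = 2 * (scale l κ : ℝ) * 3 ^ (2 * d - 3 - κ) := by
        rw [hMκ]; push_cast; ring
      push_cast at hsepR ⊢
      rw [hMR]
      refine le_of_le_of_eq hsepR ?_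
      congr 1
      ring

/-- Every regular network of dimension `d ≥ 2` with train length `l` has an integral schedule all of
whose delays are less than `2 * 9 ^ (d - 1) * l`. -/
theorem main (hd : 2 ≤ d) {l : ℕ} (hl : 0 < l) {N : Set (TrainLine d)} (hN : IsNetwork N)
    (hreg : IsRegular N l) :
    ∃ t : TrainLine d → ℝ, IsSchedule N t ∧ ∀ L ∈ N, t L < 2 * 9 ^ (d - 1) * l := by
  obtain ⟨T, hT1, hT2⟩ := main_int hd hl hN hreg
  refine ⟨fun L => T L, ⟨?_, ?_⟩, ?_⟩
  · intro L _
    beta_reduce
    exact_mod_cast (hT1 L).1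
  · intro L hL L' hL' hne p hp hp'
    have gL := hreg.good hL
    have gL' := hreg.good hL'
    unfold TrainLine.occupied
    rw [gL.speed, gL.len, gL'.speed, gL'.len]
    simp only [div_one]
    exact disjoint_of_far (hT2 L hL L' hL' hne p hp hp')
  · intro L _
    beta_reduce
    have := (hT1 L).2
    have h2 : ((T L : ℤ) : ℝ) < ((2 * 9 ^ (d - 1) * (l : ℤ) : ℤ) : ℝ) := by exact_mod_cast this
    push_cast at h2
    exact h2

end Pool.Agent.Lib.MP_03ede5_co
end
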